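import Pool.Agent.Lib.MP_aa40d3_nt.FV.Final
import Pool.Agent.Lib.MP_aa40d3_nt.SP.At

/-! Fundamental matrices on a dense open set of closed points, all branches of all fibres. -/

open Polynomial
open scoped Polynomial.Bivariate IntermediateField

namespace Pool.Agent.GR.FV

open Pool.Agent.GR.CV Pool.Agent.GR.GE FB
open Pool.Agent.Lib.MP_a01f70_lc.QQ (Place)

theorem final17 (r : ℕ) : ∃ k : ℕ, ∀ (R : Type) [CommRing R]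
    [Algebra.FiniteType ℤ R] (ι ψ : R →+* ℂ) (g : R) (S : CV.Sys R r) (F : Type) [Field F]
    [Algebra ℂ F] (x y f : F) (Sg : Finset (Place ℂ F)) (d : ℕ) (B : Finset ℂ) (c₀ c₁ c₂ : ℂ),
    RingHom.ker ι ≤ RingHom.ker ψ → ι g ≠ 0 → S.P.Monic → Irreducible (S.map ι).P →
    Transcendental ℂ x → ℂ⟮x, y⟯ = ⊤ → aevalAeval x y (S.map ι).P = 0 →
    Module.finrank ℂ⟮f⟯ F = d → 3 ≤ d → (IsCoatom ℂ⟮f⟯ ∨ ∀ c, Fib Sg f c 1 (d - 3)) →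
    Fib Sg f 0 (-1) d → (∀ c, c ≠ c₁ → c ≠ c₂ → Fib Sg f c 1 1) →
    (∀ c ∈ B, Fib Sg f c 2 1 ∧ Fib Sg f c 1 (d - 2)) → 2 * d + k ≤ B.card → c₀ ∈ B →
    Transcendental (IntermediateField.adjoin ℚ {c | c ≠ c₀ ∧ ¬ Fib Sg f c 1 d}) c₀ →
    (∀ p ∉ Sg, ∀ φ, At φ p → (S.map ι).Loc (φ x) (φ y)) →
    (∀ m : Ideal R, m.IsMaximal → RingHom.ker ι ≤ m → g ∉ m →
      (S.map (Ideal.Quotient.mk m)).Fund) → (S.map ψ).AlgAll := by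
  rcases Nat.eq_zero_or_pos r with rfl | hr
  · exact ⟨0, by intros; exact fun _ _ _ _ _ _ a => a.elim0⟩
  obtain ⟨k, hk⟩ := final16 r hr
  refine ⟨k, fun R _ _ ι ψ g S F _ _ x y f Sg d B c₀ c₁ c₂ h0 hg hP hI hx hxy hy h1 h2 h3 h4 h5 h6
    h7 h8 h9 hL hF w u z hD => ?_⟩
  have hD' : (S.map ι).D ≠ 0 := d_ne h0 fun e => hD (by rw [e, eval_zero])
  refine SP.all_spec ι ψ h0 S hP hI ?_ w u z hD
  obtain ⟨R', j, k1, k2, k3⟩ := SP.fund_loc ι S hg hF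
  rw [← k2] at hI hy hL hD' ⊢
  exact hk R' R'.subtype R'.subtype (S.map j) F x y f Sg d B c₀ c₁ c₂ le_rfl (hP.map _) hI hI hD' hx
    hxy hy h1 h2 h3 h4 h5 h6 h7 h8 h9 hL k3

end Pool.Agent.GR.FV
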