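import Pool.Agent.Lib.MP_aa40d3_nt.FU.Big

/-! A third sheet detects the loops on two sheets. -/

namespace Pool.Agent.GR.FV

open GC FK

variable {G : Type} [Group G] {d : ℕ} {b : BS G d} {Q : G → Prop} {l A C B : List G}
  {u v s x : G} {a c e : Fin d}

theorem arc (hQ : PairQ b Q l) (h : Hur l (u :: v :: (C ++ s :: B))) (hu : b.Swap u a c)
    (hv : b.Swap v a c) (hC : C.prod ∈ b.K e) (hπ : b.π C.prod = 1) (hs : b.Swap s c e)
    (hae : a ≠ e) : ∃ κ ∈ b.K a, Q (κ * (u * v * C.prod)) := by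
  have ht := hs.conj C.prod
  rw [hπ] at ht
  have h1 : Hur l ([u, v] ++ [C.prod * s * C.prod⁻¹] ++ (C ++ B)) := by
    simpa using h.trans (by simpa using (hur_blockR C [s]).ctx [u, v] B)
  change b.Swap _ c e at ht
  generalize C.prod * s * C.prod⁻¹ = t at ht h1
  have h2 := h1.trans ((hur_oneL [u, v] t).app_right _)
  have hta : t ∈ b.K a := ht.2.2.2 a hu.1 hae
  have hu' : b.Swap (t⁻¹ * u * t) a e := by
    have := hu.conj t
    rw [b.fix a _ hta, ht.apply] at this
    rwa [ht.inv] at this ⊢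
  have h3 : Hur l ([t] ++ ([t⁻¹ * u * t, t⁻¹ * v * t] ++ C) ++ B) := by simpa using h2
  have h4 := h3.trans ((hur_blockL [t] _).app_right B)
  rw [List.append_assoc] at h4
  generalize List.map _ [t] ++ B = B' at h4
  have h5 : Hur l ([t⁻¹ * u * t] ++ ([t⁻¹ * v * t] ++ C) ++ B') := by simpa using h4
  have h6 := (h5.trans ((hur_blockL [t⁻¹ * v * t] C).ctx _ B')).trans
    ((hur_oneL C (C.prod⁻¹ * (t⁻¹ * v * t) * C.prod)).ctx _ B')
  have h7 := hQ _ _ _ h6 ⟨_, _, hu'⟩
  have k1 := b.conj (t⁻¹ * u * t) e _ (inv_mem hC)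
  have k2 := b.conj (u * v) a t hta
  have e1 : b.π (u * v) a = a := by
    rw [map_mul, hu.2.1, hv.2.1, Equiv.swap_mul_self]
    rfl
  rw [e1] at k2
  rw [hu'.symm.apply] at k1
  exact ⟨_, mul_mem (mul_mem k1 (inv_mem hta)) k2, (congrArg Q (by group)).mp h7⟩

theorem swap_of (h : b.IsSw x) (hac : a ≠ c) (hx : ∀ l, l ≠ a → l ≠ c → x ∈ b.K l) :
    b.Swap x a c := by
  obtain ⟨i, j, h⟩ := h
  have hi : i = a ∨ i = c := by
    by_contra k
    push Not at k
    exact h.not_mem (hx i k.1 k.2)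
  have hj : j = a ∨ j = c := by
    by_contra k
    push Not at k
    exact h.symm.not_mem (hx j k.1 k.2)
  rcases hi with rfl | rfl <;> rcases hj with rfl | rfl
  exacts [absurd rfl h.1, h, h.symm, absurd rfl h.1]

theorem lk_two (hQ : PairQ b Q l) (hl : ∀ x ∈ l, Q x) (hc : ∀ γ x, Q x → Q (γ * x * γ⁻¹))
    (hb : ∀ P, b.π P = 1 → (∀ i, P ∈ b.K i ∨ ∃ u ∈ b.K i, Q (u * P)) → Q P)
    (h : Hur l (A ++ x :: s :: B)) (hA : ∀ y ∈ A, b.Swap y a c) (hx : b.Swap x a c)
    (hs : b.Swap s a e) (hce : c ≠ e) : LK b.π Q A := by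
  intro C C' hT hπ
  have h1 := h.trans (hT.app_right _)
  have hK : ∀ y ∈ gen (C ++ C'), ∀ l, l ≠ a → l ≠ c → y ∈ b.K l := fun y hy l k1 k2 =>
    gen_le.2 (fun z hz => (hA z hz).2.2.2 l k1 k2) (hT.gen ▸ hy)
  have hsw : ∀ y ∈ C, b.Swap y a c := fun y hy => swap_of (hT.all (fun γ x hx => hx.conj γ)
    (fun z hz => ⟨_, _, hA z hz⟩) y (List.mem_append_left _ hy)) hx.1
    (hK y (mem_gen (List.mem_append_left _ hy)))
  rcases C with _ | ⟨u, _ | ⟨v, C⟩⟩
  · exact hb _ (map_one _) fun i => Or.inl (one_mem _)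
  · rw [List.prod_singleton]
    exact h1.all hc hl u (by simp)
  have hπ := hπ.resolve_right (by simp)
  have hu := hsw u (by simp)
  have hv := hsw v (by simp)
  have hp : (u :: v :: C).prod = u * v * C.prod := by simp [mul_assoc]
  have hπ' : b.π C.prod = 1 := by
    rwa [hp, map_mul, map_mul, hu.2.1, hv.2.1, Equiv.swap_mul_self, one_mul] at hπ
  have he : C.prod ∈ b.K e := hK _ ((gen _).list_prod_mem fun y hy => mem_gen (by simp [hy])) e
    hs.1.symm hce.symm
  refine hb _ hπ fun i => ?_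
  by_cases k1 : i = a
  · have h2 := Hur.right (A := u :: v :: C ++ C') h1
    have h3 := hs.conj x
    rw [hx.apply, b.fix e x (hx.2.2.2 e hs.1.symm hce.symm)] at h3
    generalize x * s * x⁻¹ = t at h2 h3
    have h4 : Hur l ((u :: v :: C) ++ (C' ++ [t]) ++ x :: B) := by simpa using h2
    rw [k1, hp]
    exact Or.inr (arc hQ (by simpa using h4.trans ((hur_oneL C' t).ctx _ _)) hu hv he hπ' h3 hs.1)
  by_cases k2 : i = c
  · have h4 : Hur l ((u :: v :: C) ++ ((C' ++ [x]) ++ [s]) ++ B) := by simpa using h1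
    rw [k2, hp]
    exact Or.inr (arc hQ (by simpa using h4.trans ((hur_oneL (C' ++ [x]) s).ctx _ _)) hu.symm
      hv.symm he hπ' hs hce)
  exact Or.inl (hK _ ((gen _).list_prod_mem fun y hy => mem_gen (List.mem_append_left _ hy)) i k1 k2)

/-- Some exchange leads to a third sheet. -/
theorem helper (hd : 3 ≤ d) (hA : ∀ y ∈ A, b.Swap y a c) (hB : ∀ y ∈ B, b.IsSw y)
    (ht : b.Trans (gen (A ++ B)) Finset.univ) : ∃ s ∈ B, ∃ a c e,
      (∀ y ∈ A, b.Swap y a c) ∧ b.Swap s a e ∧ c ≠ e := by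
  by_contra hn
  push Not at hn
  have k : ∀ y ∈ A ++ B, ∀ i ∈ ({a, c} : Finset (Fin d)), b.π y i ∈ ({a, c} : Finset (Fin d)) := by
    intro y hy i hi
    rcases List.mem_append.1 hy with hy | hy
    · rw [Finset.mem_insert, Finset.mem_singleton] at hi
      rcases hi with rfl | rfl
      · simp [(hA y hy).apply]
      · simp [(hA y hy).symm.apply]
    by_cases e : y ∈ b.K i
    · rwa [b.fix i y e]
    have h1 := (hB y hy).swap e
    rw [Finset.mem_insert, Finset.mem_singleton] at hi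
    rcases hi with rfl | rfl
    · simp [← hn y hy _ _ _ hA h1]
    · simp [← hn y hy _ _ _ (fun z hz => (hA z hz).symm) h1]
  have k' : ∀ y ∈ gen (A ++ B), ∀ i ∈ ({a, c} : Finset (Fin d)),
      b.π y i ∈ ({a, c} : Finset (Fin d)) := fun y hy => by
    induction hy using Subgroup.closure_induction'' with
    | mem x hx => exact k x hx
    | inv_mem x hx =>
      obtain ⟨i, j, h⟩ : b.IsSw x := (List.mem_append.1 hx).elim (fun e => ⟨_, _, hA x e⟩) (hB x)
      rw [h.inv]
      exact k x hx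
    | one => exact fun i hi => by simpa using hi
    | mul x y _ _ hx hy => exact fun i hi => by simpa using hx _ (hy i hi)
  obtain ⟨e, -, he⟩ := Finset.exists_mem_notMem_of_card_lt_card (s := {a, c})
    (t := (Finset.univ : Finset (Fin d))) (Finset.card_le_two.trans_lt (by simp; omega))
  obtain ⟨y, hy, rfl⟩ := ht a (Finset.mem_univ _) e (Finset.mem_univ _)
  exact he (k' y hy a (by simp))

/-- The elements that are trivial on some sheet generate this subgroup. -/
def ord (b : BS G d) : Subgroup G := Subgroup.closure {x | ∃ c, x ∈ b.K c}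

theorem ord_normal (b : BS G d) : (ord b).Normal := ⟨fun x hx γ => by
  induction hx using Subgroup.closure_induction with
  | mem x hx => exact Subgroup.subset_closure ⟨_, b.conj γ _ x hx.choose_spec⟩
  | one => simp
  | mul x y _ _ hx hy => simpa [mul_assoc] using mul_mem hx hy
  | inv x _ hx => simpa [mul_assoc] using inv_mem hx⟩

theorem ord_agree (hc : b.Conn Finset.univ) {i j : Fin d} (hx : b.Swap x j i) :
    b.Agree (ord b) (b.K j) (Finset.univ.erase j) := by
  have mono : ∀ {A A' : List G}, (∀ y ∈ A, y ∈ A') → gen (A ++ [x, x]) ≤ gen (A' ++ [x, x]) :=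
    fun h => gen_le.2 fun y hy => mem_gen ((List.mem_append.1 hy).elim
      (fun k => List.mem_append_left _ (h y k)) (List.mem_append_right _))
  have key : ∀ y ∈ ord b, ∃ A : List G, (∀ z ∈ A, z ∈ b.K j) ∧ y ∈ gen (A ++ [x, x]) := by
    intro y hy
    induction hy using Subgroup.closure_induction with
    | mem y hy =>
      obtain ⟨c, hy⟩ := hy
      by_cases h : c = j
      · exact ⟨[y], by simpa [h] using hy, mem_gen (by simp)⟩
      obtain ⟨s, h1, h2⟩ : ∃ s ∈ b.K j, b.π s i = c := by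
        by_cases k : i = c
        · exact ⟨1, one_mem _, by simpa using k⟩
        · obtain ⟨s, hs⟩ := hc i (Finset.mem_univ _) c (Finset.mem_univ _) k
          exact ⟨s, hs.2.2.2 j hx.1 (Ne.symm h), hs.apply⟩
      have h3 := hx.conj s
      rw [h2, b.fix j s h1] at h3
      have h4 := b.conj (s * x * s⁻¹) c y hy
      rw [h3.symm.apply] at h4
      refine ⟨[s, _], by simpa using ⟨h1, h4⟩, ?_⟩
      have h5 : s * x * s⁻¹ ∈ gen ([s, s * x * s⁻¹ * y * (s * x * s⁻¹)⁻¹] ++ [x, x]) :=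
        mul_mem (mul_mem (mem_gen (by simp)) (mem_gen (by simp))) (inv_mem (mem_gen (by simp)))
      have h6 := mul_mem (mul_mem (inv_mem h5) (mem_gen (x := s * x * s⁻¹ * y * (s * x * s⁻¹)⁻¹)
        (by simp))) h5
      simpa [mul_assoc] using h6
    | one => exact ⟨[], by simp, one_mem _⟩
    | mul y z _ _ hy hz =>
      obtain ⟨A, h1, h2⟩ := hy
      obtain ⟨A', h3, h4⟩ := hz
      exact ⟨A ++ A', fun w hw => (List.mem_append.1 hw).elim (h1 w) (h3 w),
        mul_mem (mono (fun _ => List.mem_append_left _) h2)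
          (mono (fun _ => List.mem_append_right _) h4)⟩
    | inv y _ hy => exact hy.imp fun A h => ⟨h.1, inv_mem h.2⟩
  intro y hy c k1 k2
  obtain ⟨A, h1, h2⟩ := key y hy
  exact (BS.wreath h1 hx y h2 c k1 k2).imp fun w hw => ⟨gen_le.2 h1 hw.1, hw.2⟩

theorem ord_sheet (hc : b.Conn Finset.univ) (hx : b.IsSw x) (hQ : ∀ γ x, Q x → Q (γ * x * γ⁻¹))
    (h : ∀ γ, Q (γ⁻¹ * x * γ * x)) {P : G} (hP : P ∈ ord b) (hπ : b.π P = 1) (i : Fin d) :
    ∃ u ∈ b.K i, Q (u * P) := by
  obtain ⟨a, a', hx⟩ := hx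
  obtain ⟨j, hj⟩ : ∃ j, j ≠ i := by
    by_cases k : a = i
    exacts [⟨a', k ▸ hx.1.symm⟩, ⟨a, k⟩]
  obtain ⟨w, -, e1, e2⟩ := BS.bta_two (N := ⊤) (fun a ha c hc' h => (hc a ha c hc' h).imp
    fun z hz => ⟨trivial, hz⟩) (Finset.mem_univ a) (Finset.mem_univ a') hx.1 (Finset.mem_univ j)
    (Finset.mem_univ i) hj
  have h1 := hx.conj w
  rw [e1, e2] at h1
  have hi : i ∈ Finset.univ.erase j := Finset.mem_erase.2 ⟨hj.symm, Finset.mem_univ _⟩
  obtain ⟨κ, k1, k2⟩ := ord_agree hc h1 P hP i hi (by rw [hπ]; exact hi)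
  have k3 := b.conj κ i _ (mul_mem (h1.apply ▸ b.conj _ j _ (inv_mem k1)) (inv_mem k2))
  rw [BS.bsb_apply k2, hπ, h1.inv] at k3
  exact ⟨_, k3, (congrArg Q (by group)).mp (hQ w _ (h (w⁻¹ * κ * w)⁻¹))⟩

/-- All but two members of a list with trivial product lie in a normal subgroup. -/
theorem pow_mem_two {N : Subgroup G} [N.Normal] [DecidablePred (· ∈ N)] (hg : gen l = ⊤)
    (hp : l.prod = 1) (hl : ∀ x ∈ l, IsOfFinOrder x) (h : l.countP (· ∉ N) ≤ 2) (g : G) :
    ∃ n, 0 < n ∧ g ^ n ∈ N := by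
  let φ := QuotientGroup.mk' N
  have h1 : ∀ L : List G, φ L.prod = φ (L.filter (· ∉ N)).prod := fun L => by
    induction L with
    | nil => rfl
    | cons x L ih =>
      by_cases hx : x ∈ N
      · rw [List.filter_cons_of_neg (by simpa using hx), List.prod_cons, map_mul, ih,
          show φ x = 1 from (QuotientGroup.eq_one_iff x).2 hx, one_mul]
      · rw [List.filter_cons_of_pos (by simpa using hx), List.prod_cons, List.prod_cons, map_mul,
          map_mul, ih]
  have h2 := h1 l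
  have h3 : ∀ x ∈ l.filter (· ∉ N), IsOfFinOrder x := fun x hx => hl x (List.mem_filter.1 hx).1
  have h4 : ∀ x ∈ l, φ x = 1 ∨ x ∈ l.filter (· ∉ N) := fun x hx => by
    by_cases k : x ∈ N
    exacts [Or.inl ((QuotientGroup.eq_one_iff x).2 k), Or.inr (by simp [hx, k])]
  rw [List.countP_eq_length_filter] at h
  rw [hp, map_one] at h2
  generalize l.filter (· ∉ N) = L at h h2 h3 h4
  obtain ⟨z, hz, h5⟩ : ∃ z, IsOfFinOrder z ∧ ∀ x ∈ L, φ x ∈ Subgroup.zpowers (φ z) := by
    rcases L with _ | ⟨z, _ | ⟨z', _ | _⟩⟩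
    · exact ⟨1, IsOfFinOrder.one, by simp⟩
    · exact ⟨z, h3 z (by simp), by simp⟩
    · rw [List.prod_cons, List.prod_singleton, map_mul] at h2
      refine ⟨z, h3 z (by simp), ?_⟩
      simp only [List.mem_cons, List.not_mem_nil, or_false]
      rintro x (rfl | rfl)
      · exact Subgroup.mem_zpowers _
      · rw [eq_inv_of_mul_eq_one_right h2.symm]
        exact inv_mem (Subgroup.mem_zpowers _)
    · simp at h
  obtain ⟨t, ht⟩ : φ g ∈ Subgroup.zpowers (φ z) :=
    (gen_le (H := (Subgroup.zpowers (φ z)).comap φ)).2 (fun x hx => (h4 x hx).elim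
      (fun e => by rw [Subgroup.mem_comap, e]; exact one_mem _) (h5 x)) (hg ▸ Subgroup.mem_top g)
  obtain ⟨n, hn, e⟩ := isOfFinOrder_iff_pow_eq_one.1 ((φ.isOfFinOrder hz).zpow (i := t))
  exact ⟨n, hn, (QuotientGroup.eq_one_iff _).1 ((map_pow φ g n).trans (ht ▸ e))⟩

end Pool.Agent.GR.FV
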