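import Pool.Agent.Lib.MP_aa40d3_nt.FV.Arc

/-! Two members are arbitrary. -/

open Matrix

namespace Pool.Agent.GR.FV

open GC NP FK FS FT FU

open Classical in
theorem finite_bigV (r : ℕ) (hr : 1 ≤ r) : ∃ k : ℕ, ∀ (d m : ℕ) (G : Type) [Group G]
    (σ : G →* Mt m) (b : BR σ d) (l T R : List G), 3 ≤ d → (∀ i, (b.e i).rank = r) → gen l = ⊤ →
    l.prod = 1 → Hur l (T ++ R) → (∀ x ∈ T, b.bs.IsSw x) → b.bs.Trans (gen T) Finset.univ →
    2 * d + k ≤ T.length → PairQ b.bs IsOfFinOrder l → (∀ x ∈ l, IsOfFinOrder x) →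
    l.countP (· ∉ ord b.bs) ≤ 2 → Finite G := by
  obtain ⟨k, hk⟩ := equal r hr
  refine ⟨k + 1, fun d m G _ σ b l T R hd hrk hg hp h1 h2 h3 h4 hQ hl h5 => ?_⟩
  have hc : ∀ γ x : G, IsOfFinOrder x → IsOfFinOrder (γ * x * γ⁻¹) := fun γ x hx =>
    (isConj_iff.2 ⟨γ, rfl⟩ : IsConj x (γ * x * γ⁻¹)).isOfFinOrder hx
  obtain ⟨A, B, a1, a2, a3⟩ := two (Finset.mem_univ (⟨0, by omega⟩ : Fin d))
    (Finset.mem_univ (⟨1, by omega⟩ : Fin d)) (by simp) _ T le_rfl h2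
    (fun _ _ l hl => absurd (Finset.mem_univ l) hl) h3
  obtain ⟨s, hs, a, c, e, a4, a5, a6⟩ := helper hd a2 (fun y hy => a1.all
    (fun γ x hx => hx.conj γ) h2 y (List.mem_append_right _ hy)) (a1.gen ▸ h3)
  have a7 := a1.length
  rw [List.length_append] at a7
  rw [Finset.card_univ, Fintype.card_fin] at a3
  obtain ⟨B₁, B₂, rfl⟩ := List.append_of_mem hs
  obtain ⟨A, x', rfl⟩ := (List.eq_nil_or_concat' A).resolve_left fun e => by
    rw [e, List.length_nil] at a7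
    omega
  rw [List.length_append, List.length_singleton] at a7
  obtain ⟨B', a8⟩ : ∃ B', Hur l (A ++ x' :: s :: B') := ⟨_, by
    simpa using (h1.trans (a1.app_right R)).trans (by
      simpa using (hur_oneL B₁ s).ctx (A ++ [x']) (B₂ ++ R))⟩
  have a9 := fun y hy => a4 y (List.mem_append_left _ hy)
  obtain ⟨x, C, b1, b2⟩ := hk d m G σ b A a c hrk a9
    (lk_two hQ hl hc (fin_sheets b.bs) a8 a9 (a4 x' (by simp)) a5 a6) (by omega)
  have b3 : Hur l (x :: x :: x :: (C ++ x' :: s :: B')) := a8.trans (b1.app_right _)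
  generalize C ++ x' :: s :: B' = L at b3
  have b4 : ∀ γ, IsOfFinOrder (γ⁻¹ * x * γ * x) := fun γ => by
    have k1 : γ ∈ gen (x :: L) := gen_le.2 (fun y hy => mem_gen (by simpa using hy))
      (b3.gen.trans hg ▸ Subgroup.mem_top γ)
    obtain ⟨_, _, k2⟩ := id b2
    exact hQ _ _ _ ((b3.trans (circle _ k1 k2.2.2.1)).trans
      ((hur_blockL [γ⁻¹ * x * γ] [γ⁻¹ * x * γ, x]).app_right L))
      (show b.bs.IsSw _ by simpa using b2.conj γ⁻¹)
  have := ord_normal b.bs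
  have h10 : ∀ P : G, IsOfFinOrder P := fun P => by
    obtain ⟨n, hn, k1⟩ := pow_mem_two hg hp hl h5 P
    have e : b.bs.π ((P ^ n) ^ orderOf (b.π (P ^ n))) = 1 :=
      (map_pow _ _ _).trans (pow_orderOf_eq_one _)
    exact ((fin_sheets b.bs _ e fun i => Or.inr (ord_sheet (fun u hu v hv e =>
      (BS.conn_sub h2 h3 u hu v hv e).imp fun _ e => e.2) b2 hc b4 (pow_mem k1 _) e i)).of_pow
      (orderOf_pos _).ne').of_pow hn.ne'
  obtain ⟨H, f1, f2⟩ := kol σ hg fun x => qu_of_fin σ (h10 x)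
  rw [(Subgroup.eq_bot_iff_forall H).2 fun w hw => b.inj
    ((unip_tf (unip_nil f2 hw) (h10 w)).trans (map_one σ).symm)] at f1
  exact Nat.finite_of_card_ne_zero (Subgroup.index_bot (G := G) ▸ f1.index_ne_zero)

end Pool.Agent.GR.FV
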