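import Pool.Agent.Lib.MP_aa40d3_nt.FV.Big
import Pool.Agent.Lib.MP_aa40d3_nt.FS.Top

/-! The monodromy group of a primitive covering with two arbitrary fibres. -/

open Matrix

namespace Pool.Agent.GR.FV

open GC FB NP FK CV FS

theorem group_finV (r : ℕ) (hr : 1 ≤ r) : ∃ k : ℕ, ∀ (s d n : ℕ) (Mov Bs Xs : Finset (Fin n))
    (g : Fin n → GLr (r * d)) (ρ : Fin n → ℝ), 3 ≤ d → s + 1 ≤ d → Xs.card ≤ 2 →
    Function.Injective ρ → (∀ L, LowerL ρ L → (∀ a, a ∈ L) →
      PairH Mo (fun x => IsOfFinOrder x.1) (L.map (mkd Mov g))) →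
    (∀ a, IsOfFinOrder (g a).val) →
    (∀ L, LowerL ρ L → (∀ a, a ∈ L) → (L.map g).prod = 1) →
    ∀ Z : Subalgebra ℂ (Mt (r * d)),
      SimpZ (incl (Subgroup.closure (Set.range g))) Z →
      (∀ γ ∈ Subgroup.closure (Set.range g), ∀ x ∈ Z, γ.val * x * (γ⁻¹).val ∈ Z) → CommA Z →
      Module.finrank ℂ Z = d → ((∀ e, e ∣ d → 1 < e → e < d → s < 2 * e ∧ Xs = ∅) ∨
        PrimZ (incl (Subgroup.closure (Set.range g))) Z) →
      2 * d + k ≤ Bs.card → (∃ a ∈ Mov, a ∈ Bs) →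
      (∀ a ∈ Bs, ((g a).val - 1).rank ≤ r ∧ ∃ x ∈ Z, (g a).val * x ≠ x * (g a).val) →
      (∀ a, a ∉ Bs → a ∉ Xs → g a = 1 ∨ She r (d - s) (g a).val Z) →
      Finite (Subgroup.closure (Set.range g)) := by
  classical
  obtain ⟨k, hk⟩ := finite_bigV r hr
  refine ⟨k + 1, fun s d n Mov Bs Xs g ρ hd hd' hX hρ ho hq hinf Z hI hZ hc hfr hpr hB hM hMa hP =>
    ?_⟩
  obtain ⟨L0, h1, h2⟩ := exists_lowerL hρ Finset.univ fun _ _ _ _ => Finset.mem_univ _
  have h0 : L0.Nodup := h1.1.imp fun hab e => hab.ne (congrArg _ e)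
  have hall : ∀ a, a ∈ L0 := fun a => List.mem_toFinset.1 (h2 ▸ Finset.mem_univ a)
  set Γ := Subgroup.closure (Set.range g) with hΓ
  let g' : Fin n → Γ := fun a => ⟨g a, Subgroup.subset_closure ⟨a, rfl⟩⟩
  have hg : Subgroup.closure (Set.range g') = ⊤ := by
    apply Subgroup.map_injective Γ.subtype_injective
    rw [MonoidHom.map_closure, ← Set.range_comp, ← MonoidHom.range_eq_map, Subgroup.range_subtype]
    rfl
  have hf : PairH Mo (fun x => IsOfFinOrder x.1.val) (L0.map (mkd Mov g')) := by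
    have e : (L0.map (mkd Mov g')).map (FB.pm Γ.subtype) = L0.map (mkd Mov g) := by
      rw [List.map_map]
      rfl
    have k := ho L0 h1 hall
    rw [← e] at k
    exact k.of_map (FB.pm Γ.subtype)
  have hfst : (L0.map (mkd Mov g')).map Prod.fst = L0.map g' := by
    rw [List.map_map]
    rfl
  have hZ' : InvR (incl Γ) Z := fun γ => hZ γ γ.2
  have : NeZero (r * d) := ⟨Nat.mul_ne_zero (by omega) (by omega)⟩
  have := hI.semi hZ'
  obtain ⟨e, e0, e1, e2, e3, e4⟩ := exists_idemS hc hfr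
  obtain ⟨b, rfl⟩ := exists_BR (incl_inj Γ) hZ' e0 e1 e2 e3 e4
  have hE := hI.trans hZ' b e0 e1
  have hp : ((L0.map g').prod).val = (L0.map g).prod := by
    rw [← Γ.coe_subtype, map_list_prod, List.map_map]
    rfl
  have hgen : gen (L0.map g') = ⊤ := by
    rw [← hg, gen]
    congr 1
    ext x
    simp [hall]
  have hrk' := b.rank_eq hE rfl
  have hπ : ∀ a ∈ Bs, b.bs.π (g' a) ≠ 1 := fun a ha h4 => by
    obtain ⟨x, hx, h3⟩ := (hMa a ha).2
    refine h3 ?_
    obtain ⟨c, rfl⟩ := e4 x hx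
    rw [Finset.mul_sum, Finset.sum_mul]
    refine Finset.sum_congr rfl fun i _ => ?_
    have h5 := b.act (g' a) i
    rw [show b.π (g' a) = 1 from h4] at h5
    rw [Matrix.mul_smul, Matrix.smul_mul]
    exact congrArg _ h5
  have hsw : ∀ a ∈ Bs, b.bs.IsSw (g' a) := fun a ha => by
    obtain ⟨i, hi⟩ := not_forall.1 fun e => hπ a ha (Equiv.ext e)
    exact ⟨i, _, b.swap hr hrk' (x := g' a) (hMa a ha).1 (fun e => hi e.symm) rfl⟩
  have hsp : ∀ a, a ∉ Xs → b.bs.Sp (max s 2) (g' a) := fun a hx => by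
    by_cases ha : a ∈ Bs
    · exact (hsw a ha).sp.mono (le_max_right _ _)
    · rcases hP a ha hx with h | h
      · rw [show g' a = 1 from Subtype.ext h]
        exact ⟨∅, by simp, fun _ _ => one_mem _⟩
      · exact (sp_of_she b hr hrk' e1 (x := g' a) h).mono (le_max_left _ _)
  have hcs : Bs.card ≤ b.bs.cs (L0.map g') := by
    rw [BS.cs, List.countP_map, List.countP_eq_length_filter,
      ← List.toFinset_card_of_nodup (h0.filter _)]
    exact Finset.card_le_card fun a ha =>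
      List.mem_toFinset.2 (List.mem_filter.2 ⟨hall a, decide_eq_true (hsw a ha)⟩)
  have hprim : b.bs.Prim := by
    refine hpr.elim (fun h => ?_) fun h => h.prim b e0 e1
    by_cases hX0 : Xs = ∅
    · refine prim_of_dvd (s := max s 2) hgen hE (fun x hx => ?_)
        fun e a1 a2 a3 => max_lt (h e a1 a2 a3).1 (by omega)
      obtain ⟨a, -, rfl⟩ := List.mem_map.1 hx
      exact hsp a (by simp [hX0])
    · exact prim_of_dvd (s := d) hgen hE (fun x _ => ⟨Finset.univ, by simp, by simp⟩)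
        fun e a1 a2 a3 => absurd (h e a1 a2 a3).2 hX0
  obtain ⟨T, R, k1, k2, k3, k4⟩ := norm hprim hgen (by omega)
  have hs : ∀ x : Γ, IsOfFinOrder x.val → IsOfFinOrder x := fun x =>
    (Subgroup.subtype_injective _).isOfFinOrder_iff.1
  refine hk d _ Γ _ b (L0.map g') T R hd hrk' hgen (Subtype.ext (hp.trans (hinf L0 h1 hall))) k1 k2
    k4 ?_ (fun x y B a1 a2 => hs _ ?_) (fun x hx => ?_) (le_trans ?_ hX)
  · rw [← cs_nf k2 k3, k1.cs]
    omega
  · obtain ⟨a, k5, k6⟩ := hM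
    rw [← hfst] at k1 a1
    exact pairQ_norm (Q := fun x : Γ => IsOfFinOrder x.val) hd k1 k2 k3 k4
      ⟨_, List.mem_map_of_mem (hall a), hsw a k6, mo_mkd.2 k5⟩ hf x y B a1 a2
  · obtain ⟨a, -, rfl⟩ := List.mem_map.1 hx
    exact hs _ (Units.isOfFinOrder_val.1 (hq a))
  · rw [List.countP_map, List.countP_eq_length_filter,
      ← List.toFinset_card_of_nodup (h0.filter _)]
    refine Finset.card_le_card fun a ha => by_contra fun hx => ?_
    obtain ⟨c, -, hc⟩ := (hsp a hx).free (S := Finset.univ) (by simp; omega)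
    exact of_decide_eq_true (List.mem_filter.1 (List.mem_toFinset.1 ha)).2
      (Subgroup.subset_closure ⟨c, hc⟩)

end Pool.Agent.GR.FV
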