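import Pool.Agent.Lib.MP_aa40d3_nt.FV.Main
import Pool.Agent.Lib.MP_aa40d3_nt.FS.Final

/-! Systems on a curve with a covering that has two arbitrary fibres and one free branch point. -/

open Polynomial
open scoped Polynomial.Bivariate IntermediateField

namespace Pool.Agent.GR.FV

open Pool.Agent.GR.CV Pool.Agent.GR.GE FB NP FK FS
open Pool.Agent.Lib.MP_a01f70_lc.QQ (Place)

theorem final16 (r : ℕ) (hr : 1 ≤ r) : ∃ k : ℕ, ∀ (R : Type) [CommRing R]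
    [Algebra.FiniteType ℤ R] (ι ψ : R →+* ℂ) (S : CV.Sys R r) (F : Type) [Field F] [Algebra ℂ F]
    (x y f : F) (Sg : Finset (Place ℂ F)) (d : ℕ) (B : Finset ℂ) (c₀ c₁ c₂ : ℂ),
    RingHom.ker ι ≤ RingHom.ker ψ → S.P.Monic →
    Irreducible (S.map ι).P → Irreducible (S.map ψ).P → (S.map ψ).D ≠ 0 →
    Transcendental ℂ x → ℂ⟮x, y⟯ = ⊤ → aevalAeval x y (S.map ι).P = 0 →
    Module.finrank ℂ⟮f⟯ F = d → 3 ≤ d → (IsCoatom ℂ⟮f⟯ ∨ ∀ c, Fib Sg f c 1 (d - 3)) →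
    Fib Sg f 0 (-1) d → (∀ c, c ≠ c₁ → c ≠ c₂ → Fib Sg f c 1 1) →
    (∀ c ∈ B, Fib Sg f c 2 1 ∧ Fib Sg f c 1 (d - 2)) → 2 * d + k ≤ B.card → c₀ ∈ B →
    Transcendental (IntermediateField.adjoin ℚ {c | c ≠ c₀ ∧ ¬ Fib Sg f c 1 d}) c₀ →
    (∀ p ∉ Sg, ∀ φ, At φ p → (S.map ι).Loc (φ x) (φ y)) →
    (∀ m : Ideal R, m.IsMaximal → (S.map (Ideal.Quotient.mk m)).Fund) → (S.map ψ).Alg := by
  classical
  obtain ⟨k, hk⟩ := final16a r hr
  have : NeZero r := ⟨by omega⟩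
  refine ⟨k, fun R _ _ ι ψ S F _ _ x y f Sg d B c₀ c₁ c₂ h0 hP hI hI' hD hx hxy hy hdeg hd hE
    h1 h2' h2 hg h3 h4 hL hF => SP.alg_spec ι ψ h0 S hP hI ?_ hI' hD⟩
  have hMo : GE.Model x y (S.map ι).P := ⟨hx, hxy, hP.map _, hI, hy⟩
  have : IsFF F := isFF_of_gen hx hxy hI.ne_zero hy
  obtain ⟨n, t, M, i₀, ht, k1, k2, k3, k7, k6⟩ :=
    exists_listS (by omega) hdeg h1 (fun c hc => (h2 c hc).1) h3 h4
  have k4 := fun i hi => h2 _ ((k7 i).1 hi)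
  have hf : Transcendental ℂ f := tr_of_rank (by omega)
  obtain ⟨w, hw, hw'⟩ := exists_int hf
  obtain ⟨P', hM'⟩ := GE.exists_model hf hw hw'
  obtain ⟨s, Xs, a1, a2, a3, a4⟩ : ∃ (s : ℕ) (Xs : Finset (Fin n)), s + 1 ≤ d ∧ Xs.card ≤ 2 ∧
      ((∀ e, e ∣ d → 1 < e → e < d → s < 2 * e ∧ Xs = ∅) ∨ PrimP P') ∧
      ∀ i, i ∉ Xs → Fib Sg f (t i) 1 (d - s) := by
    by_cases h : 4 ≤ d ∧ ∀ c, Fib Sg f c 1 (d - 3)
    · exact ⟨3, ∅, h.1, by simp, Or.inl fun e _ _ _ => ⟨by omega, rfl⟩, fun i _ => h.2 _⟩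
    refine ⟨d - 1, Finset.univ.filter fun i => t i ∈ ({c₁, c₂} : Finset ℂ), by omega,
      (Finset.card_le_card_of_injOn t (fun i hi => (Finset.mem_filter.1 hi).2)
        ht.injOn).trans Finset.card_le_two, hE.symm.imp (fun k e b1 b2 b3 => ?_)
        fun k => primP_of_field hM' (of_coatom k), fun i hi => ?_⟩
    · have b4 : d = 3 := by_contra fun b4 => h ⟨by omega, k⟩
      rw [b4, show e = 2 by omega] at b1
      omega
    · rw [show d - (d - 1) = 1 by omega]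
      simp only [Finset.mem_filter, Finset.mem_univ, Finset.mem_insert, Finset.mem_singleton,
        true_and, not_or] at hi
      exact h2' _ hi.1 hi.2
  have hd' := hM'.deg.trans hdeg
  obtain ⟨S', E, rfl, h⟩ := exists_chg (S.map ι) hMo (d_ne h0 hD) hM'
  obtain ⟨R', _, _, ι', S₀, q1, rfl, q2⟩ := transport ι S hP h hF
  have hL' : ∀ p, p ∉ Sg → ∀ φ, At φ p → (S₀.map ι').Loc (φ f) (φ w) :=
    fun p hp φ hφ => h.loc φ (hL p hp φ hφ)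
  exact h.alg (hk s d n R' ι' S₀ t M Xs i₀ q1 ((q1.natDegree_map _).symm.trans hd') hd a1 a2 a3
    h.D' ht k1 k2 (hg.trans k3)
    (fun i hi => ⟨unr_fin hM' hL' (k4 i hi).2, loc_bra hM' hL' (k4 i hi).1⟩)
    (fun i _ hi => unr_fin hM' hL' (a4 i hi))
    (fun c hc => unr_fin hM' hL' (k6 c hc)) (unr_inf hM' hL' (Fib.pls0.1 h1)) hM'.irr q2)

end Pool.Agent.GR.FV
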